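import Pool.Agent.E8helper3.AT.Gf
import Pool.Agent.Y123.ST.Out

/-!
# The subtorsors for `M_0`, for Kummer motives and for the fibres of a degenerating family at almost all tuples of
# algebraic integers

Let `X → ℙ¹` be a family of varieties over `ℚ` which may have a degenerate fibre at `x = 0`, with unipotent local monodromy.
Its period matrix (rows: Betti, columns: de Rham) is `P(x) = Ω exp(N log x) Z(x)`, where `N` is the nilpotent residue of the
Gauss-Manin connection, the entries of `Z` and of `Z⁻¹` are G-functions with rational coefficients, `Z(0) = 1`, and `Ω` is the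
period matrix of the limit mixed motive. We consider abstract systems `T (x Z' + N Z) = Z A` over `ℚ[x]` of this kind (N is a
nilpotent integer matrix, it may be zero), and any invertible complex matrix `Ω`.

Let `α_1, …, α_k` be algebraic integers, `log α_j` ANY of their logarithms, `M_j` the cohomology of the fibre at
`x = 1 / α_j`, `K(α_j)` the Kummer motive of `α_j` and `M_0` any object with a period matrix `C₀` of rank `r`. The period
matrix of the sum of `M_0`, `ℚ(-1)`, the `K(α_j)` and the `M_j` is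

  `c = C₀ ⊕ (2πi) ⊕ ⨁_j ((1 log α_j; 0 2πi) ⊕ Ω exp(- N log α_j) Z(1 / α_j))`.

For a number field `K ⊂ ℂ` a `K`-subtorsor is a subset `T` of `GL` which is defined by polynomials over `K`, of any
degree, and closed under `x y⁻¹ z`; `Ω^dRB` is one with `c ∈ T`, so it contains the smallest one. Let `Gal` be the group of the matrices `g` such
that `g P` satisfies all relations over `ℂ[x, log x]` which `P` satisfies, and let `known` be the commutator group of the
group generated by the unipotent one-parameter groups in `Gal`. If the connected component of the monodromy group is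
semisimple, as it is for families of smooth projective varieties by Deligne, then `known` is this component, and it
contains the local monodromy `Ω exp(s N) Ω⁻¹`.

**Theorem.** Let `m ≥ 1`, `k`, `D`, `r` be natural numbers. For almost all `k`-tuples of algebraic integers of degree at
most `m` (all but a proportion `C H^(-c)` of the tuples of algebraic integers of degree at most `m`, all of whose conjugates
are bounded by `H`; `c > 0` and `C` depend only on the family and on `m, k, D, r` and not on `Ω` and `C₀`) the following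
is true for all determinations of the logarithms, all number fields `K` of degree at most `D` and all `K`-subtorsors `T`
with `c ∈ T`.

1. `T` is stable under `known^k`, and even under `(𝔾_a × known)^k` if `Gal` contains the local monodromy
   (`𝔾_a` acts on the Kummer motive and changes the logarithm, and `known` acts on `M_j`).
2. If moreover `Gal` contains the local monodromy and the special group of a form `B` (`Sp`, `SO` in dimension `≠ 2`, or `SL`
   for `B = 0`) then `T` is, in the torsor of the points `x ⊕ μ ⊕ ⨁ ((1 u_j; 0 μ) ⊕ X_j)` which respect polarisations up to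
   multipliers `ν_j` (`X_j Q_j X_jᵀ = ν_j B`), the full inverse image of its image under `(x, μ, ν, det X_1, …, det X_k)`; in
   the symplectic case of its image under `(x, μ, ν)`. (If `Q_j` is a polarisation of weight `w` then `ν_j = μ^w`.) So
   everything but the subtorsor for `M_0 ⊕ ℚ(-1)` and the determinants is determined.
3. Let `M_0 = 0`, and let `torsorOf` be the set of the points `μ ⊕ ⨁ ((1 u_j; 0 μ) ⊕ X_j)` with `X_j Q_j X_jᵀ = μ^w B` and
   `det X_j = δ_j μ^d` (only the first condition in the symplectic case). If some `K`-subtorsor `T'` with `c ∈ T'` is contained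
   in `torsorOf` then `torsorOf ⊆ T`; so `T' = torsorOf` is the smallest `K`-subtorsor. The torsor `Ω^dRB` is a `K`-subtorsor
   which contains the period point, so for `M = ℚ(-1) ⊕ ⨁ M_j` it contains the image of `torsorOf`, and it is contained in
   `Ω^And`, which is contained in this image if it respects the polarisations and the determinants. So in this case
   `Ω^dRB = Ω^And`, as predicted by the conjecture.

For integers `α_j` and the real logarithms such theorems are known (BigMonodromyTorsors, MP_caab05_ag, and MonodromyTorsors).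

Proof. Let `Ω, C₀` be given and let `V` be the `ℚ`-space of the monomials of degree at most `d` in `2πi` and in the entries of
`C₀` and `Ω`. By the theorem of the starting file AlgebraicFibres (MP_12eca1_ag), for almost all tuples all relations of
bounded degree over `V` between the values `Z(1 / α_j)` and the logarithms vanish on the product of the lines and of the
Zariski closures of the fibres (the points which satisfy all specialisations of the relations over `ℚ[x]` of `Z`), over all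
number fields of degree at most `D` at once. The group `(𝔾_a × Gal)^k` acts on this product (`act`, `grp_rl`): a relation
over `ℂ[x, log x]` specialises since `log x` is transcendental over `ℂ((x))` (`spec_main`). Hence all `K`-relations of bounded
degree of the period matrix are preserved by the polynomial curves in the unipotent part of the group. By the arguments of
BigMonodromyTorsors (normality, centralisers and commutators) relations of bounded degree suffice for the stability of all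
subtorsors under the commutator group.
-/

set_option autoImplicit false

open PowerSeries
open scoped commutatorElement Matrix

namespace Pool.Agent.Results.MP_470b79_ag.AlgebraicFibreTorsorsH3

/-- an integer polynomial as a power series with rational coefficients -/
noncomputable def toQ (P : Polynomial ℤ) : PowerSeries ℚ := ((P.map (Int.castRingHom ℚ) : Polynomial ℚ) : PowerSeries ℚ)

/-- The arithmetic conditions in the definition of a G-function, for a power series with rational coefficients: geometric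
growth of the coefficients and of their common denominators. -/
def GCond (g : ℚ⟦X⟧) : Prop := ∃ C : ℝ, (∀ m, |((coeff m g : ℚ) : ℝ)| ≤ C ^ (m + 1)) ∧
  ∀ m, ∃ d : ℕ, 0 < d ∧ (d : ℝ) ≤ C ^ (m + 1) ∧ ∀ j ≤ m, ∃ a : ℤ, (d : ℚ) * coeff j g = a

/-- `exp(N log x) Z(x)` solves a linear differential system over `ℚ[x]`, `Z(0) = 1`, and the entries of `Z` and of the
inverse matrix `W` are G-functions. -/
structure Family {n : ℕ} (T : Polynomial ℤ) (A : Matrix (Fin n) (Fin n) (Polynomial ℤ)) (N : Matrix (Fin n) (Fin n) ℤ)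
    (Z W : Matrix (Fin n) (Fin n) ℚ⟦X⟧) : Prop where
  /-- the denominator is not zero -/
  T_ne : T ≠ 0
  /-- the residue is nilpotent -/
  nil : N ^ n = 0
  /-- the differential system `T (x Z' + N Z) = Z A` -/
  ode : ∀ i j, toQ T * (X * PowerSeries.derivative ℚ (Z i j) + ∑ k, C (N i k : ℚ) * Z k j) = ∑ k, Z i k * toQ (A k j)
  /-- the initial condition -/
  init : ∀ i j, coeff 0 (Z i j) = if i = j then 1 else 0
  /-- `W` is the inverse of `Z` -/
  inv : W * Z = 1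
  /-- the entries of `Z` are G-functions -/
  gZ : ∀ i j, GCond (Z i j)
  /-- the entries of `W` are G-functions -/
  gW : ∀ i j, GCond (W i j)

section
variable {n : ℕ}

/-- the matrix `exp(s N)` -/
noncomputable def expN {R : Type} [CommRing R] [Algebra ℚ R] (N : Matrix (Fin n) (Fin n) ℤ) (s : R) :
    Matrix (Fin n) (Fin n) R :=
  IsNilpotent.exp (s • N.map (Int.castRingHom R))

/-- The matrix `P(x) = Ω exp(N log x) Z(x)` over the ring of the polynomials in `log x` with coefficients in `ℂ⟦x⟧`. -/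
noncomputable def formal (Ω : Matrix (Fin n) (Fin n) ℂ) (N : Matrix (Fin n) (Fin n) ℤ) (Z : Matrix (Fin n) (Fin n) ℚ⟦X⟧) :
    Matrix (Fin n) (Fin n) (Polynomial ℂ⟦X⟧) :=
  Ω.map (algebraMap ℂ (Polynomial ℂ⟦X⟧)) * expN N Polynomial.X *
    Z.map fun f => Polynomial.C (PowerSeries.map (algebraMap ℚ ℂ) f)

/-- The value of a polynomial `F` in `log x`, in `x` and in the entries of a matrix `Y`. -/
noncomputable def value (F : MvPolynomial (Option (Option (Fin n × Fin n))) ℂ) (Y : Matrix (Fin n) (Fin n) (Polynomial ℂ⟦X⟧)) :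
    Polynomial ℂ⟦X⟧ :=
  MvPolynomial.aeval (fun o => o.elim Polynomial.X fun o => o.elim (Polynomial.C (X : ℂ⟦X⟧)) fun p => Y p.1 p.2) F

/-- `g P(x)` satisfies all polynomial relations over `ℂ[x, log x]` which `P(x)` satisfies. -/
def Preserves (Ω : Matrix (Fin n) (Fin n) ℂ) (N : Matrix (Fin n) (Fin n) ℤ) (Z : Matrix (Fin n) (Fin n) ℚ⟦X⟧)
    (g : Matrix (Fin n) (Fin n) ℂ) : Prop :=
  ∀ F, value F (formal Ω N Z) = 0 → value F (g.map (algebraMap ℂ (Polynomial ℂ⟦X⟧)) * formal Ω N Z) = 0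

/-- The group generated by all unipotent one-parameter groups which preserve the relations. -/
def unip (Ω : Matrix (Fin n) (Fin n) ℂ) (N : Matrix (Fin n) (Fin n) ℤ) (Z : Matrix (Fin n) (Fin n) ℚ⟦X⟧) :
    Subgroup (Matrix.GeneralLinearGroup (Fin n) ℂ) :=
  Subgroup.closure {u | ∃ A : Matrix (Fin n) (Fin n) ℂ, IsNilpotent A ∧
    (∀ t : ℂ, Preserves Ω N Z (IsNilpotent.exp (t • A))) ∧ ∃ t : ℂ, (u : Matrix (Fin n) (Fin n) ℂ) = IsNilpotent.exp (t • A)}

/-- its commutator group -/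
def known (Ω : Matrix (Fin n) (Fin n) ℂ) (N : Matrix (Fin n) (Fin n) ℤ) (Z : Matrix (Fin n) (Fin n) ℚ⟦X⟧) :
    Subgroup (Matrix.GeneralLinearGroup (Fin n) ℂ) :=
  ⁅unip Ω N Z, unip Ω N Z⁆

/-- The local monodromy `Ω exp(c N) Ω⁻¹` preserves the relations (this is trivial if `N = 0`). -/
def LocalMonodromy (Ω : Matrix (Fin n) (Fin n) ℂ) (N : Matrix (Fin n) (Fin n) ℤ) (Z : Matrix (Fin n) (Fin n) ℚ⟦X⟧) : Prop :=
  ∀ c : ℂ, Preserves Ω N Z (Ω * expN N c * Ω⁻¹)

/-- The matrix `P(1 / α) = Ω exp(- N u) Z(1 / α)`, where `u` is a logarithm of `α`. -/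
noncomputable def periods (Ω : Matrix (Fin n) (Fin n) ℂ) (N : Matrix (Fin n) (Fin n) ℤ) (Z : Matrix (Fin n) (Fin n) ℚ⟦X⟧)
    (α u : ℂ) : Matrix (Fin n) (Fin n) ℂ :=
  Ω * expN N (-u) * Matrix.of fun i j => ∑' a : ℕ, ((coeff a (Z i j) : ℚ) : ℂ) * (1 / α) ^ a

/-- nondegenerate alternating forms -/
def Symplectic (B : Matrix (Fin n) (Fin n) ℂ) : Prop := IsUnit B ∧ Bᵀ = -B

/-- The form is zero, or nondegenerate and alternating, or nondegenerate and symmetric of rank different from `2`. -/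
def Classical (B : Matrix (Fin n) (Fin n) ℂ) : Prop := B = 0 ∨ Symplectic B ∨ (IsUnit B ∧ Bᵀ = B ∧ n ≠ 2)

/-- The relations are preserved by the local monodromy and by the matrices of determinant `1` which respect the form `B`
(by the special linear group for `B = 0`). -/
def BigMonodromy (Ω : Matrix (Fin n) (Fin n) ℂ) (N : Matrix (Fin n) (Fin n) ℤ) (Z : Matrix (Fin n) (Fin n) ℚ⟦X⟧)
    (B : Matrix (Fin n) (Fin n) ℂ) : Prop :=
  LocalMonodromy Ω N Z ∧ Classical B ∧ ∀ g : Matrix (Fin n) (Fin n) ℂ, g.det = 1 → g * B * gᵀ = B → Preserves Ω N Z g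

/-- The period matrix of the Kummer motive of a number with the logarithm `u`, for `μ = 2πi`. -/
def kummer (u μ : ℂ) : Matrix (Fin 2) (Fin 2) ℂ := !![1, u; 0, μ]

/-- The index set: `M_0`, `ℚ(-1)`, and `K(α_j)` and `M_j` for `1 ≤ j ≤ k`. -/
abbrev Ind (r k n : ℕ) : Type := (Fin r ⊕ Unit) ⊕ Σ _ : Fin k, Fin 2 ⊕ Fin n

/-- The block matrix `x ⊕ μ ⊕ ⨁_j ((1 u_j; 0 μ) ⊕ X_j)`. -/
noncomputable def total {r k : ℕ} (x : Matrix (Fin r) (Fin r) ℂ) (μ : ℂ) (u : Fin k → ℂ) (X : Fin k → Matrix (Fin n) (Fin n) ℂ) :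
    Matrix (Ind r k n) (Ind r k n) ℂ :=
  Matrix.fromBlocks (Matrix.fromBlocks x 0 0 (Matrix.of fun _ _ => μ)) 0 0
    (Matrix.blockDiagonal' fun j => Matrix.fromBlocks (kummer (u j) μ) 0 0 (X j))

/-- The points `μ ⊕ ⨁_j ((1 u_j; 0 μ) ⊕ X_j)` which respect the polarisations, with values in `ℚ(-w)`, and, unless
the form is alternating, the identifications of `det M_j` with `ℚ(-d)` up to a twist. -/
def torsorOf {k : ℕ} (B : Matrix (Fin n) (Fin n) ℂ) (Q : Fin k → Matrix (Fin n) (Fin n) ℂ) (w d : ℤ) (δ : Fin k → ℂ) :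
    Set (Matrix (Ind 0 k n) (Ind 0 k n) ℂ) :=
  {y | ∃ (μ : ℂ) (u : Fin k → ℂ) (X : Fin k → Matrix (Fin n) (Fin n) ℂ), μ ≠ 0 ∧ y = total 0 μ u X ∧
    ∀ j, X j * Q j * (X j)ᵀ = μ ^ w • B ∧ (Symplectic B ∨ (X j).det = δ j * μ ^ d)}

end

/-- `T` is (the set of complex points of) a `K`-subtorsor of `GL_B = Iso (M_dR, M_B)`: it is closed under `x y⁻¹ z`, and
it is defined in `GL_B` by polynomials with coefficients in `K`. -/
def IsSubtorsor (K : Subfield ℂ) {B : Type} [Fintype B] [DecidableEq B] (T : Set (Matrix B B ℂ)) : Prop :=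
  (∀ x ∈ T, ∀ y ∈ T, ∀ z ∈ T, x * y⁻¹ * z ∈ T) ∧ ∃ I : Set (MvPolynomial (B × B) K), ∀ x : Matrix B B ℂ, x ∈ T ↔
    IsUnit x ∧ ∀ p ∈ I, MvPolynomial.eval (fun b => x b.1 b.2) (MvPolynomial.map (algebraMap K ℂ) p) = 0

section
variable {n r k : ℕ}

/-- The period matrix of the sum of `M_0`, `ℚ(-1)`, the `K(α_j)` and the `M_j`, where `ℓ j` is a logarithm of `α j`. -/
noncomputable def periodPoint (Ω : Matrix (Fin n) (Fin n) ℂ) (N : Matrix (Fin n) (Fin n) ℤ)
    (Z : Matrix (Fin n) (Fin n) ℚ⟦X⟧) (C₀ : Matrix (Fin r) (Fin r) ℂ) (α ℓ : Fin k → ℂ) : Matrix (Ind r k n) (Ind r k n) ℂ :=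
  total C₀ (2 * Real.pi * Complex.I) ℓ fun j => periods Ω N Z (α j) (ℓ j)

/-- The conclusion for one `K`-subtorsor `T` which contains the period matrix. -/
structure Determined (K : Subfield ℂ) (Ω : Matrix (Fin n) (Fin n) ℂ) (N : Matrix (Fin n) (Fin n) ℤ)
    (Z : Matrix (Fin n) (Fin n) ℚ⟦X⟧) (T : Set (Matrix (Ind r k n) (Ind r k n) ℂ)) : Prop where
  /-- stability under the commutator group of the unipotent part of the Galois group, and under the change of the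
  logarithms if this group contains the local monodromy -/
  stable : ∀ (a : Fin k → ℂ) (g : Fin k → Matrix.GeneralLinearGroup (Fin n) ℂ), (a = 0 ∨ LocalMonodromy Ω N Z) →
    (∀ j, g j ∈ known Ω N Z) → ∀ x ∈ T, total 1 1 a (fun j => (g j : Matrix (Fin n) (Fin n) ℂ)) * x ∈ T
  /-- big monodromy, over any `M_0` -/
  relative : ∀ B : Matrix (Fin n) (Fin n) ℂ, BigMonodromy Ω N Z B →
    ∀ (Q : Fin k → Matrix (Fin n) (Fin n) ℂ) (x : Matrix (Fin r) (Fin r) ℂ) (μ : ℂ) (ν u u' : Fin k → ℂ)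
      (X X' : Fin k → Matrix (Fin n) (Fin n) ℂ), μ ≠ 0 → (∀ j, ν j ≠ 0) → (∀ j, X j * Q j * (X j)ᵀ = ν j • B) →
      (∀ j, X' j * Q j * (X' j)ᵀ = ν j • B) → (Symplectic B ∨ ∀ j, (X j).det = (X' j).det) →
      total x μ u X ∈ T → total x μ u' X' ∈ T

/-- The conclusion for the tuple `α` of algebraic integers. -/
def Good (D : ℕ) (Ω : Matrix (Fin n) (Fin n) ℂ) (N : Matrix (Fin n) (Fin n) ℤ) (Z : Matrix (Fin n) (Fin n) ℚ⟦X⟧)
    (C₀ : Matrix (Fin r) (Fin r) ℂ) (α : Fin k → ℂ) : Prop :=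
  -- the series converge
  (∀ j a b, Summable fun m : ℕ => ‖((coeff m (Z a b) : ℚ) : ℂ) * (1 / α j) ^ m‖) ∧
  -- all determinations of the logarithms
  ∀ ℓ : Fin k → ℂ, (∀ j, Complex.exp (ℓ j) = α j) →
  (∀ j, IsUnit (periods Ω N Z (α j) (ℓ j))) ∧
  -- all number fields of degree at most `D` and all subtorsors containing the period matrix
  ∀ K : Subfield ℂ, FiniteDimensional ℚ K → Module.finrank ℚ K ≤ D →
  (∀ T : Set (Matrix (Ind r k n) (Ind r k n) ℂ), IsSubtorsor K T → periodPoint Ω N Z C₀ α ℓ ∈ T → Determined K Ω N Z T) ∧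
  -- the absolute case
  ∀ B : Matrix (Fin n) (Fin n) ℂ, BigMonodromy Ω N Z B → ∀ (Q : Fin k → Matrix (Fin n) (Fin n) ℂ) (w d : ℤ) (δ : Fin k → ℂ),
    (∃ T' : Set (Matrix (Ind 0 k n) (Ind 0 k n) ℂ), IsSubtorsor K T' ∧ periodPoint Ω N Z 0 α ℓ ∈ T' ∧
      T' ⊆ torsorOf B Q w d δ) →
    ∀ T : Set (Matrix (Ind 0 k n) (Ind 0 k n) ℂ), IsSubtorsor K T → periodPoint Ω N Z 0 α ℓ ∈ T → torsorOf B Q w d δ ⊆ T

end

/-- The algebraic integers of degree at most `m`, all of whose conjugates have absolute value at most `H`. -/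
def integers (m H : ℕ) : Set ℂ :=
  {ξ | IsIntegral ℤ ξ ∧ (minpoly ℚ ξ).natDegree ≤ m ∧ ∀ z : ℂ, Polynomial.aeval z (minpoly ℚ ξ) = 0 → ‖z‖ ≤ H}

section proof

open Pool.Agent.E8helper3.AT Pool.Agent.Y123.GN

variable {n r k : ℕ}

theorem pres_iff {Ω : Matrix (Fin n) (Fin n) ℂ} {N : Matrix (Fin n) (Fin n) ℤ} {Z : Matrix (Fin n) (Fin n) ℚ⟦X⟧}
    {g : Matrix (Fin n) (Fin n) ℂ} : Preserves Ω N Z g ↔ Pres Ω N Z g := Iff.rfl

theorem nil_iff {Ω : Matrix (Fin n) (Fin n) ℂ} {N : Matrix (Fin n) (Fin n) ℤ} {Z : Matrix (Fin n) (Fin n) ℚ⟦X⟧}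
    {A : Matrix (Fin n) (Fin n) ℂ} : A ∈ Nil (Gal Ω N Z) ↔
      IsNilpotent A ∧ ∀ t : ℂ, Preserves Ω N Z (IsNilpotent.exp (t • A)) := by
  constructor
  · rintro ⟨h1, h2⟩
    refine ⟨h1, fun t => ?_⟩
    obtain ⟨u, hu, hu'⟩ := h2 t
    rw [← hu']
    exact hu.1
  · rintro ⟨h1, h2⟩
    refine ⟨h1, fun t => ?_⟩
    have hnil : ∀ t : ℂ, IsNilpotent (t • A) := fun t => h1.smul t
    have h3 : ∀ t : ℂ, IsNilpotent.exp (t • A) * IsNilpotent.exp ((-t) • A) = 1 := by
      intro t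
      rw [← IsNilpotent.exp_add_of_commute (((Commute.refl A).smul_left _).smul_right _) (hnil t) (hnil (-t)), ← add_smul,
        add_neg_cancel, zero_smul, IsNilpotent.exp_zero]
    refine ⟨⟨IsNilpotent.exp (t • A), IsNilpotent.exp ((-t) • A), h3 t, ?_⟩, ⟨h2 t, h2 (-t)⟩, rfl⟩
    have h4 := h3 (-t)
    rwa [neg_neg] at h4

theorem unip_eq (Ω : Matrix (Fin n) (Fin n) ℂ) (N : Matrix (Fin n) (Fin n) ℤ) (Z : Matrix (Fin n) (Fin n) ℚ⟦X⟧) :
    unip Ω N Z = Ug (Gal Ω N Z) := by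
  unfold unip Ug
  congr 1
  ext u
  constructor
  · rintro ⟨A, h1, h2, h3⟩
    exact ⟨A, nil_iff.2 ⟨h1, h2⟩, h3⟩
  · rintro ⟨A, h1, h3⟩
    exact ⟨A, (nil_iff.1 h1).1, (nil_iff.1 h1).2, h3⟩

theorem known_eq (Ω : Matrix (Fin n) (Fin n) ℂ) (N : Matrix (Fin n) (Fin n) ℤ) (Z : Matrix (Fin n) (Fin n) ℚ⟦X⟧) :
    known Ω N Z = Knw Ω N Z := by
  unfold known Knw
  rw [unip_eq]

theorem total_eq (x : Matrix (Fin r) (Fin r) ℂ) (μ : ℂ) (u : Fin k → ℂ) (X : Fin k → Matrix (Fin n) (Fin n) ℂ) :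
    total x μ u X = EM (wT x μ) (fun i => kum (u i) μ) X := rfl

theorem wT_one : wT (1 : Matrix (Fin r) (Fin r) ℂ) 1 = 1 := by
  unfold wT
  have h1 : (Matrix.of fun _ _ => (1 : ℂ) : Matrix Unit Unit ℂ) = 1 := by
    ext i j
    rfl
  rw [h1, Matrix.fromBlocks_one]

theorem point_eq (Ω : Matrix (Fin n) (Fin n) ℂ) (N : Matrix (Fin n) (Fin n) ℤ)
    (Z : Matrix (Fin n) (Fin n) ℚ⟦X⟧) (C₀ : Matrix (Fin r) (Fin r) ℂ) (α ℓ : Fin k → ℂ) :
    periodPoint Ω N Z C₀ α ℓ = tot (wT C₀ tpi) Ω N Z α ℓ := rfl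

theorem big_GB {Ω : Matrix (Fin n) (Fin n) ℂ} {N : Matrix (Fin n) (Fin n) ℤ} {Z : Matrix (Fin n) (Fin n) ℚ⟦X⟧}
    {B : Matrix (Fin n) (Fin n) ℂ} (hB : BigMonodromy Ω N Z B) : GB B ≤ Gal Ω N Z := by
  intro g hg
  have hg' := (GB B).inv_mem hg
  exact ⟨hB.2.2 _ hg.1 hg.2, hB.2.2 _ hg'.1 hg'.2⟩

/-- stability in the case of big monodromy -/
theorem stb {D : ℕ} {Ω : Matrix (Fin n) (Fin n) ℂ} {N : Matrix (Fin n) (Fin n) ℤ} {Z : Matrix (Fin n) (Fin n) ℚ⟦X⟧}
    {C₀ : Matrix (Fin r) (Fin r) ℂ} {α ℓ : Fin k → ℂ} (hg : GoodL D Ω N Z C₀ α) (hℓ : ∀ j, Complex.exp (ℓ j) = α j)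
    {K : Subfield ℂ} (hK : FiniteDimensional ℚ K) (hKD : Module.finrank ℚ K ≤ D) {T : Set (Matrix (Ind r k n) (Ind r k n) ℂ)}
    (hT : Pool.Agent.TH127.PT.IsSubtorsor K T) (hc : periodPoint Ω N Z C₀ α ℓ ∈ T) {B : Matrix (Fin n) (Fin n) ℂ}
    (hB : BigMonodromy Ω N Z B) : StB B T :=
  StB_of hB.2.1 (big_GB hB) fun a g hg' x hx => hg.2.2 ℓ hℓ K hK hKD T hT hc a g (Or.inr hB.1) hg' x hx

theorem total_inj {x x' : Matrix (Fin r) (Fin r) ℂ} {μ μ' : ℂ} {u u' : Fin k → ℂ} {X X' : Fin k → Matrix (Fin n) (Fin n) ℂ}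
    (h : total x μ u X = total x' μ' u' X') : μ = μ' ∧ X = X' := by
  have h1 := congrFun (congrFun h (Sum.inl (Sum.inr ()))) (Sum.inl (Sum.inr ()))
  refine ⟨h1, ?_⟩
  funext j
  ext a b
  have h2 := congrFun (congrFun h (Sum.inr ⟨j, Sum.inr a⟩)) (Sum.inr ⟨j, Sum.inr b⟩)
  have h3 : ∀ (μ : ℂ) (u : Fin k → ℂ) (X : Fin k → Matrix (Fin n) (Fin n) ℂ) (x : Matrix (Fin r) (Fin r) ℂ),
      total x μ u X (Sum.inr ⟨j, Sum.inr a⟩) (Sum.inr ⟨j, Sum.inr b⟩) = X j a b := by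
    intro μ u X x
    show Matrix.blockDiagonal' (fun j => Matrix.fromBlocks (kummer (u j) μ) 0 0 (X j)) ⟨j, Sum.inr a⟩ ⟨j, Sum.inr b⟩ = _
    rw [Matrix.blockDiagonal'_apply_eq]
    rfl
  rw [h3, h3] at h2
  exact h2

theorem inter_sub {K : Subfield ℂ} {B : Type} [Fintype B] [DecidableEq B] {T T' : Set (Matrix B B ℂ)} (h : IsSubtorsor K T)
    (h' : IsSubtorsor K T') : IsSubtorsor K (T ∩ T') := by
  obtain ⟨h1, I, h2⟩ := h
  obtain ⟨h1', I', h2'⟩ := h'
  refine ⟨fun x hx y hy z hz => ⟨h1 x hx.1 y hy.1 z hz.1, h1' x hx.2 y hy.2 z hz.2⟩, I ∪ I', fun x => ?_⟩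
  rw [Set.mem_inter_iff, h2, h2']
  constructor
  · rintro ⟨⟨h3, h4⟩, h5, h6⟩
    refine ⟨h3, ?_⟩
    rintro p (hp | hp)
    · exact h4 p hp
    · exact h6 p hp
  · rintro ⟨h3, h4⟩
    exact ⟨⟨h3, fun p hp => h4 p (Or.inl hp)⟩, h3, fun p hp => h4 p (Or.inr hp)⟩

theorem alg_of {K : Subfield ℂ} (hK : FiniteDimensional ℚ K) : ∀ x ∈ K, IsAlgebraic ℚ x := by
  intro x hx
  have : NumberField K := { to_charZero := inferInstance, to_finiteDimensional := hK }
  have h6 : IsAlgebraic ℚ (⟨x, hx⟩ : K) := Algebra.IsAlgebraic.isAlgebraic _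
  exact h6.algebraMap (A := ℂ)

theorem wT_smul (x : Matrix (Fin 0) (Fin 0) ℂ) (μ : ℂ) : wT x μ = μ • (1 : Matrix (Fin 0 ⊕ Unit) (Fin 0 ⊕ Unit) ℂ) := by
  ext (i | i) (j | j)
  · exact i.elim0
  · exact i.elim0
  · exact j.elim0
  · show μ = (μ • (1 : Matrix (Fin 0 ⊕ Unit) (Fin 0 ⊕ Unit) ℂ)) (Sum.inr i) (Sum.inr j)
    rw [Matrix.smul_apply, Matrix.one_apply_eq, smul_eq_mul, mul_one]

/-- the conclusion for one tuple -/
theorem good_of {D : ℕ} {Ω : Matrix (Fin n) (Fin n) ℂ} (hΩ : IsUnit Ω) {N : Matrix (Fin n) (Fin n) ℤ} (hN : N ^ n = 0)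
    {Z : Matrix (Fin n) (Fin n) ℚ⟦X⟧} {C₀ : Matrix (Fin r) (Fin r) ℂ} {α : Fin k → ℂ} (hg : GoodL D Ω N Z C₀ α)
    (hg0 : GoodL D Ω N Z (0 : Matrix (Fin 0) (Fin 0) ℂ) α) : Good D Ω N Z C₀ α := by
  refine ⟨fun j a b => (hg.1 j a b).norm, fun ℓ hℓ => ⟨fun j => ?_, fun K hK hKD => ⟨?_, ?_⟩⟩⟩
  · exact (hΩ.mul (IsUnit.of_mul_eq_one _ (Ex_neg_mul hN (ℓ j)))).mul (hg.2.1 j)
  · intro T hT hc
    have hT' : Pool.Agent.TH127.PT.IsSubtorsor K T := Pool.Agent.Y123.ST.subT_iff.1 hT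
    refine ⟨?_, ?_⟩
    · intro a g ha hgk x hx
      have h1 := hg.2.2 ℓ hℓ K hK hKD T hT' hc a g ha (fun i => by rw [← known_eq]; exact hgk i) x hx
      rw [total_eq, wT_one]
      exact h1
    · intro B hB Q x μ ν u u' X X' hμ hν hX hX' hd hx
      exact full_fibre hT' (stb hg hℓ hK hKD hT' hc hB) hμ hν hx hX hX' hd
  · rintro B hB Q w d δ ⟨T', hT', hcT', hsub⟩ T hT hc y ⟨μ, u, X, hμ, rfl, hX⟩
    have hTT := inter_sub hT hT'
    have hTTl : Pool.Agent.TH127.PT.IsSubtorsor K (T ∩ T') := Pool.Agent.Y123.ST.subT_iff.1 hTT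
    have hTl : Pool.Agent.TH127.PT.IsSubtorsor K T := Pool.Agent.Y123.ST.subT_iff.1 hT
    have hcc : periodPoint Ω N Z 0 α ℓ ∈ T ∩ T' := ⟨hc, hcT'⟩
    have h0 : EM (tpi • (1 : Matrix (Fin 0 ⊕ Unit) (Fin 0 ⊕ Unit) ℂ)) (fun i => kum (ℓ i) tpi)
        (fun j => periods Ω N Z (α j) (ℓ j)) ∈ T ∩ T' := by
      rw [← wT_smul (0 : Matrix (Fin 0) (Fin 0) ℂ)]
      exact hcc
    obtain ⟨κ', Y, h1, h2⟩ := tateM (alg_of hK) hTTl h0 hμ
    obtain ⟨μ₁, u₁, X₁, hμ₁, h3, h4⟩ := hsub h2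
    rw [h3] at h1
    have h5 : μ = μ₁ := by
      have h6 := congrFun (congrFun h3 (Sum.inl (Sum.inr ()))) (Sum.inl (Sum.inr ()))
      have h7 : (μ • (1 : Matrix (Fin 0 ⊕ Unit) (Fin 0 ⊕ Unit) ℂ)) (Sum.inr ()) (Sum.inr ()) = μ₁ := h6
      rwa [Matrix.smul_apply, Matrix.one_apply_eq, smul_eq_mul, mul_one] at h7
    subst h5
    have hd : Symplectic B ∨ ∀ j, (X₁ j).det = (X j).det := by
      by_cases hS : Symplectic B
      · exact Or.inl hS
      · right
        intro j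
        rw [((h4 j).2.resolve_left hS), ((hX j).2.resolve_left hS)]
    exact full_fibre hTl (stb hg0 hℓ hK hKD hTl hc hB) hμ (fun _ => zpow_ne_zero w hμ) h1 (fun j => (h4 j).1)
      (fun j => (hX j).1) hd

end proof

/-- **The theorem.** -/
theorem result {n : ℕ} {T : Polynomial ℤ} {A : Matrix (Fin n) (Fin n) (Polynomial ℤ)} {N : Matrix (Fin n) (Fin n) ℤ}
    {Z W : Matrix (Fin n) (Fin n) ℚ⟦X⟧} (hF : Family T A N Z W) (m : ℕ) (hm : 1 ≤ m) (k D r : ℕ) :
    ∃ c : ℝ, 0 < c ∧ ∃ C : ℝ, ∀ Ω : Matrix (Fin n) (Fin n) ℂ, IsUnit Ω → ∀ C₀ : Matrix (Fin r) (Fin r) ℂ,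
      ∀ H : ℕ, 1 ≤ H → (integers m H).Finite ∧
      ({α : Fin k → ℂ | (∀ j, α j ∈ integers m H) ∧ ¬ Good D Ω N Z C₀ α}.ncard : ℝ) ≤
        C * (H : ℝ) ^ (-c) * ((integers m H).ncard : ℝ) ^ k := by
  classical
  have hnr := Pool.Agent.Y916.Af.nrh_of_gfs (Pool.Agent.E8helper3.AT.gfs T A N Z W hF.T_ne hF.nil hF.ode hF.init hF.inv
    hF.gZ hF.gW)
  have hGZ : ∀ i j, Pool.Agent.E8helper3.AT.Gro (Z i j) := fun i j => Pool.Agent.E8helper3.AT.GC.gro (hF.gZ i j)
  have hGW : ∀ i j, Pool.Agent.E8helper3.AT.Gro (W i j) := fun i j => Pool.Agent.E8helper3.AT.GC.gro (hF.gW i j)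
  obtain ⟨c₁, hc₁, C₁, hC₁, h₁⟩ := Pool.Agent.E8helper3.AT.main_count hF.nil hF.inv hGZ hGW hnr m hm k D r
  obtain ⟨c₂, hc₂, C₂, hC₂, h₂⟩ := Pool.Agent.E8helper3.AT.main_count hF.nil hF.inv hGZ hGW hnr m hm k D 0
  refine ⟨min c₁ c₂, lt_min hc₁ hc₂, C₁ + C₂, fun Ω hΩ C₀ H hH => ?_⟩
  obtain ⟨hfin, hle₁⟩ := h₁ Ω hΩ C₀ H hH
  obtain ⟨-, hle₂⟩ := h₂ Ω hΩ 0 H hH
  have hH1 : (1 : ℝ) ≤ H := by exact_mod_cast hH
  refine ⟨hfin, ?_⟩
  set S : Set (Fin k → ℂ) := {α | (∀ j, α j ∈ integers m H) ∧ ¬ Good D Ω N Z C₀ α} with hS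
  set S₁ : Set (Fin k → ℂ) := {α | (∀ i, Pool.Agent.Y916.Sl.SInt m H (α i)) ∧ ¬ Pool.Agent.E8helper3.AT.GoodL D Ω N Z C₀ α}
    with hS₁
  set S₂ : Set (Fin k → ℂ) := {α | (∀ i, Pool.Agent.Y916.Sl.SInt m H (α i)) ∧
    ¬ Pool.Agent.E8helper3.AT.GoodL D Ω N Z (0 : Matrix (Fin 0) (Fin 0) ℂ) α} with hS₂
  have hbig : {α : Fin k → ℂ | ∀ i, Pool.Agent.Y916.Sl.SInt m H (α i)}.Finite := by
    have h1 := Set.Finite.pi' (fun _ : Fin k => hfin)
    exact h1
  have hsub : S ⊆ S₁ ∪ S₂ := by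
    rintro α ⟨h1, h2⟩
    by_contra h3
    rw [Set.mem_union, not_or] at h3
    apply h2
    have h4 : Pool.Agent.E8helper3.AT.GoodL D Ω N Z C₀ α := by
      by_contra h5
      exact h3.1 ⟨h1, h5⟩
    have h5 : Pool.Agent.E8helper3.AT.GoodL D Ω N Z (0 : Matrix (Fin 0) (Fin 0) ℂ) α := by
      by_contra h5
      exact h3.2 ⟨h1, h5⟩
    exact good_of hΩ hF.nil h4 h5
  have hfin₁ : S₁.Finite := hbig.subset fun α h => h.1
  have hfin₂ : S₂.Finite := hbig.subset fun α h => h.1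
  have h3 : (S.ncard : ℝ) ≤ S₁.ncard + S₂.ncard := by
    exact_mod_cast (Set.ncard_le_ncard hsub (hfin₁.union hfin₂)).trans (Set.ncard_union_le _ _)
  have hpow : ∀ c : ℝ, min c₁ c₂ ≤ c → (H : ℝ) ^ (-c) ≤ (H : ℝ) ^ (-min c₁ c₂) := fun c hc =>
    Real.rpow_le_rpow_of_exponent_le hH1 (by linarith)
  have hn0 : (0 : ℝ) ≤ ((integers m H).ncard : ℝ) ^ k := by positivity
  calc (S.ncard : ℝ) ≤ S₁.ncard + S₂.ncard := h3
    _ ≤ C₁ * (H : ℝ) ^ (-c₁) * ((integers m H).ncard : ℝ) ^ k + C₂ * (H : ℝ) ^ (-c₂) * ((integers m H).ncard : ℝ) ^ k :=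
      add_le_add hle₁ hle₂
    _ ≤ C₁ * (H : ℝ) ^ (-min c₁ c₂) * ((integers m H).ncard : ℝ) ^ k +
        C₂ * (H : ℝ) ^ (-min c₁ c₂) * ((integers m H).ncard : ℝ) ^ k :=
      add_le_add (mul_le_mul_of_nonneg_right (mul_le_mul_of_nonneg_left (hpow _ (min_le_left _ _)) hC₁) hn0)
        (mul_le_mul_of_nonneg_right (mul_le_mul_of_nonneg_left (hpow _ (min_le_right _ _)) hC₂) hn0)
    _ = (C₁ + C₂) * (H : ℝ) ^ (-min c₁ c₂) * ((integers m H).ncard : ℝ) ^ k := by ring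

end Pool.Agent.Results.MP_470b79_ag.AlgebraicFibreTorsorsH3
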