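import Mathlib
import Pool.Agent.E8helper1.TC.DrbFin

/-!
# The de Rham-Betti conjecture is a statement about tensors of degree four

`K` is an algebraic closure of `ℚ` in `ℂ`, `(D, V, c)` is a de Rham-Betti object over `K` (`D` is the
de Rham realisation, `V` the Betti realisation), `H` a Hodge decomposition of `V` of weight `w`
(`H p = V ^ (p, w - p)`), and `ψ` a nondegenerate bilinear form which is a Hodge class and a de
Rham-Betti class (a polarisation). The intended case is `M = h^1(A)` for an abelian variety `A` over
`K`, `w = 1`.

Assumptions:

* every de Rham-Betti subobject has a complement (for `h^1(A)`: the subobjects are given by abelian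
  subvarieties, by the analytic subgroup theorem of Wüstholz),
* every endomorphism of the Hodge structure is one of the de Rham-Betti object (for `h^1(A)`: it is
  given by an endomorphism of `A`, Riemann),
* either the centre of the algebra of endomorphisms has no element `≠ 0` which is skew for `ψ` (no
  factor of type IV), or all Hodge classes on tensor powers are de Rham-Betti classes (for abelian
  varieties: Deligne, Blasius).

Then **all de Rham-Betti classes on all tensor powers are Hodge classes** if and only if the
**de Rham-Betti classes on the fourth tensor power** (codimension two on `A ^ 4`) are Hodge classes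
and the centre condition holds, which is empty without factors of type IV: the skew central
endomorphisms which annihilate all Hodge classes annihilate all de Rham-Betti classes.

The proof does not use the Tannakian formalism. The operators on `V` that annihilate all de Rham-Betti
classes form a Lie algebra `L` over `ℚ`. The derivations of `ℂ` act on the matrix of periods by
elements of `L` (and scalars), and it follows that the subspaces stable under `L` and the operators
which commute with `L` are those of the de Rham-Betti object. So the trace form on `L` is
nondegenerate, and the orthogonal projection from `End V` to `L` is a form of degree four on `V`. It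
is a **de Rham-Betti class**, since `L` is defined by such classes and therefore defined over `K` also
in `End D`. If it is a Hodge class, the Hodge operator normalizes `L`, hence it is the sum of an
element of `L` and of an element of the centre of the algebra of endomorphisms.
-/

set_option autoImplicit false

namespace Pool.Agent.Results.MP_470b79_ag.DegreeFourTensorsH1

open Module TensorProduct Pool.Agent.E8helper1.TC

/-- **The de Rham-Betti conjecture is a statement about tensors of degree four.** -/
theorem result {K : Type} [Field K] [CharZero K] [IsAlgClosed K] [Algebra.IsAlgebraic ℚ K]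
    [Algebra K ℂ] {V D : Type} [AddCommGroup V] [Module ℚ V] [FiniteDimensional ℚ V]
    [AddCommGroup D] [Module K D] [FiniteDimensional K D]
    {c : ℂ ⊗[K] D ≃ₗ[ℂ] ℂ ⊗[ℚ] V} {w : ℕ} {H : ℤ → Submodule ℂ (ℂ ⊗[ℚ] V)}
    {ψ : V →ₗ[ℚ] V →ₗ[ℚ] ℚ} (hH : DirectSum.IsInternal H)
    (hnd : ∀ u, (∀ v, ψ u v = 0) → u = 0) (hψH : IsHodge H w (two ψ))
    (hψ : IsDRB (2 * Real.pi * Complex.I) c w (two ψ))
    (hsub : ∀ U : Submodule ℚ V, IsSubobject c U → ∃ U', IsSubobject c U' ∧ IsCompl U U')
    (hend : ∀ e : Module.End ℚ V, IsHodgeEnd H e → IsDRBEnd c e)
    (hcase : (∀ z, IsSkewCentral H ψ z → z = 0) ∨ HodgeAreDRB c w H) :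
    (∀ r, DRBAreHodge c w H r) ↔ DRBAreHodge c w H 4 ∧ CentreCondition c w H ψ :=
  drb_final hH hnd hψH hψ hsub hend hcase

end Pool.Agent.Results.MP_470b79_ag.DegreeFourTensorsH1
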