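import Pool.Agent.E8helper42.TG.Cube

/-!
# Torsors and relations of bounded complexity for an arbitrary object and almost all cyclic trigonal curves

For `N + 1` points `e_0, …, e_N` with `N + 1` prime to `3` let `C_e` be the smooth projective curve with the affine
equation `y³ = (x - e_0) … (x - e_N)`, of genus `N`. Over a field with the third roots of unity the motive `h^1(C_e)`
is the sum of two eigenspaces `M_e` and `M_e'` of rank `N` for the action of the group of order `3`, which are dual to
each other up to a twist. `M_e` has the de Rham basis `x^a dx / y`, `a < N`, and the integrals over the segments from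
`e_l` to `e_(l+1)`, `l < N`, are its periods, up to the factor `1 - ζ`. If the `e_i` are in a number field `K`,
we get a de Rham-Betti object over `K(ζ)`. Let `M_s` be the sum of the `M_e` for any finite number of
curves of this form, of any genera, and let `M_0` be any other object over `K`, with period matrix `C₀`.

**Theorem.** For almost all `s` (see below) all polynomial relations over `K` of bounded complexity between the periods
of `M_0` and the periods of `M_s` follow from the relations between the periods of `M_0` and the determinants of the
`M_e`, and `(det M_e)^3` is `c` times the product of the differences of the points, with constants `c` which depend only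
on `N`. In particular **every `K`-subtorsor of bounded complexity of `Iso(M_0) × ∏ Iso(M_e)` which contains the period
matrix** is the preimage of a subset of `Iso(M_0) × ∏ Iso(det M_e)`. So up to bounded complexity
`Ω^dRB` for `M_0 ⊕ M_s` is the preimage of `Ω^dRB` for `M_0` and the motives `det M_e`, which come from the Fermat
curves of degree `3` and from Artin motives; this is the torsor predicted by the conjecture.

Here the `M_e` are of unitary type: the monodromy group of the family is contained in a unitary group over the Eisenstein
integers, and its Zariski closure contains `SL_N` (in the earlier results of this kind it is a symplectic or an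
orthogonal group). The invariance of the relations under `SL_N` is proved in Lean (`Pool/Agent/E8helper42/TG`), nothing
is assumed. The field `K` is not fixed, its degree may grow; there is no condition on `M_0` but its rank, which may grow,
too.

Proof. 1. The functions `Φ_l = ∫ ∏ (x - e_i)^(2/3) dx` over the segments satisfy an integrable system of differential
equations; this gives the determinant of the periods. 2. When `e_l` and `e_(l+1)` come together, `Φ_l` is
`(e_(l+1) - e_l)^(7/3)` times an analytic function, and `Φ_(l+1) - Φ_l`, `Φ_(l-1) - Φ_l` and the other `Φ_m` are analytic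
(one moves the segments to a circle around the two points). So the analytic continuation along a
loop around the wall `e_l = e_(l+1)` is a complex reflection `M_l` of order three, and it preserves the relations.
3. `M_0 M_1⁻¹` is unipotent; its logarithm and the conjugation by the `M_l` generate the Lie algebra
`sl_N` if `N + 1` is prime to `3`; so the relations between the functions are invariant under `SL_N`, and by `SL^κ`
for several independent curves. 4. The theorem on exceptional points of families with arbitrary monodromy groups, where
the torsor has a section with algebraic entries (here the determinant is a cubic irrationality)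
(`Pool/Agent/E8helper42/GF`, handed in as `ArbitraryMonodromyH42` for the period conjecture), is applied with the
monomials in the periods of `M_0` as constants. 5. A torsor which contains `(C₀, P)` and `(C₀, P g)` is stable under `g`.

The definitions (`Pool.Agent.E8helper42.TG`, `Pool.Agent.Y890.MV`, `Pool.Agent.Y124`, `Pool.Agent.Y120`):
* `MT n` : tuples of complex matrices `A j` of size `n j`; `Pt r n` : pairs of a complex matrix of size `r` and such a
  tuple; `Vr r n` : their entries; `vl io F x` : the value of the polynomial `F` over `K` at the entries of `x`;
* `Sm k T F` : the partial degrees of `F` are at most `k`, its coefficients are integers of `K` with all conjugates at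
  most `T ^ k`;
* `SubT io k T S` : `S` consists of invertible elements, `x y⁻¹ z ∈ S` for `x, y, z ∈ S`, and `S` is defined, in the set
  of the invertible elements, by polynomials `F` over `K` with `Sm k T F`;
* `InnerM U k` : points of norm at most `k` at distance at least `1 / k` from the complement of `U`;
* `HtLe K T x` : `x` is a quotient of two integers of `K` all of whose conjugates are at most `T`;
* `Cov D m S` : `S` is covered by at most `m` hypersurfaces of degree at most `D`.
-/

set_option autoImplicit false

namespace Pool.Agent.Results.MP_470b79_ag.TrigonalCurvesH42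

open Filter Pool.Agent Pool.Agent.Y119.PLM Pool.Agent.E8helper42.TG

/-- the branch points of the curves: `n j + 1` points for the curve `j` -/
abbrev Br {κ : Type} (n : κ → ℕ) : Type := Σ j : κ, Fin (n j + 1)

/-- the points of each curve are ordered by their real parts -/
def Region {κ : Type} (n : κ → ℕ) : Set (Br n → ℂ) :=
  {x | ∀ j (i k : Fin (n j + 1)), i < k → (x ⟨j, i⟩).re < (x ⟨j, k⟩).re}

/-- the branch of `1 / y`, `y³ = (x - e_0) … (x - e_N)`, on the segment from `e_l` to `e_(l+1)`: the product of
`(x - e_i)^(-1/3)`, `i ≤ l`, and of `-(e_i - x)^(-1/3)`, `i > l` -/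
noncomputable def invY {N : ℕ} (e : Fin (N + 1) → ℂ) (l : Fin N) (x : ℂ) : ℂ :=
  (∏ i ∈ Finset.Iic l.castSucc, (x - e i) ^ (-(1 / 3) : ℂ)) * ∏ i ∈ Finset.Ici l.succ, -(e i - x) ^ (-(1 / 3) : ℂ)

/-- the integral of `x^a dx / y` over the segment from `e_l` to `e_(l+1)` -/
noncomputable def period {N : ℕ} (e : Fin (N + 1) → ℂ) (a l : Fin N) : ℂ :=
  ∫ u in (0 : ℝ)..1, (e l.succ - e l.castSucc) *
    ((e l.castSucc + u * (e l.succ - e l.castSucc)) ^ (a : ℕ) *
      invY e l (e l.castSucc + u * (e l.succ - e l.castSucc)))

/-- the period matrices of the curves -/
noncomputable def periods {κ : Type} {n : κ → ℕ} (x : Br n → ℂ) : MT n :=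
  fun j => Matrix.of (period fun i => x ⟨j, i⟩)

/-- all relations come from the determinants: a polynomial over `K` with bounded degree and coefficients which vanishes
at `(C, P)` vanishes at all `(C, A)` with `det (A j) = det (P j)` for all `j`; and if `S` is a torsor defined by such
polynomials which contains `(C, P)`, then for all `y` in `S` all `(y.1, A)` with `det (A j) = det (y.2 j)` for all `j`
are in `S` -/
def Generic {κ : Type} {n : κ → ℕ} (K : Type) [Field K] [NumberField K] (io : K →+* ℂ) (k : ℕ) (T : ℝ) {r : ℕ}
    (C : Matrix (Fin r) (Fin r) ℂ) (P : MT n) : Prop :=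
  (∀ F : MvPolynomial (Vr r n) K, Sm k T F → vl io F (C, P) = 0 →
    ∀ A : MT n, (∀ j, (A j).det = (P j).det) → vl io F (C, A) = 0) ∧
  ∀ S : Set (Pt r n), SubT io k T S → (C, P) ∈ S → ∀ y ∈ S, ∀ A : MT n, (∀ j, (A j).det = (y.2 j).det) → (y.1, A) ∈ S

/-- the exceptional points of height at most `T`, for the matrix `M.2` of size `M.1 ≤ k` -/
def Exceptional {κ : Type} [Fintype κ] (n : κ → ℕ) (K : Type) [Field K] [NumberField K] (io : K →+* ℂ) (k : ℕ) (T : ℝ)
    (M : Σ r : Fin (k + 1), Matrix (Fin r) (Fin r) ℂ) : Set (Br n → K) :=
  {s | (∀ i, Y120.HtLe K T (s i)) ∧ (fun i => io (s i)) ∈ Y890.MV.InnerM (Region n) k ∧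
    ¬ Generic K io k T M.2 (periods fun i => io (s i))}

/-- Let `n j + 1` be prime to `3` for all `j` in the finite set `κ`. The cube of the determinant of the periods of the
curve `j` is a constant times the product of the differences of the points. There is `ω → ∞` such that for all large `T`,
all number fields `K` of degree at most `ω T`, all embeddings and all complex matrices `C` of size at most `ω T`: all
tuples `s` of branch points in `K` of height at most `T` in the compact set `InnerM (Region n) (ω T)`, outside of at most
`T ^ (1 / ω T)` hypersurfaces of degree at most `T ^ (1 / ω T)` and with at most `T ^ (1 / ω T) * N ^ (|Br n| - 1)`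
exceptions (`N` = number of elements of `K` of height at most `T`), are generic: all polynomial relations over `K` between
`C` and the periods, of partial degrees at most `ω T` and with coefficients of size at most `T ^ ω T`, and all torsors
defined by such relations, come from `C` and the determinants. -/
theorem result {κ : Type} [Fintype κ] [DecidableEq κ] [Nonempty κ] (n : κ → ℕ) (hn : ∀ j, ¬ 3 ∣ n j + 1) :
    (∀ j, ∃ c : ℂ, c ≠ 0 ∧ ∀ x ∈ Region n,
      (periods x j).det ^ 3 = c * ∏ i, ∏ k ∈ Finset.Ioi i, (x ⟨j, k⟩ - x ⟨j, i⟩)) ∧
    ∃ (ω : ℝ → ℕ) (T₀ : ℝ), Tendsto ω atTop atTop ∧ Monotone ω ∧ ∀ T, T₀ ≤ T → 0 < ω T ∧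
      ∀ (K : Type) [Field K] [NumberField K], Module.finrank ℚ K ≤ ω T → ∀ (io : K →+* ℂ)
        (M : Σ r : Fin (ω T + 1), Matrix (Fin r) (Fin r) ℂ),
        Y124.Cov ⌊T ^ ((ω T : ℝ)⁻¹)⌋₊ ⌊T ^ ((ω T : ℝ)⁻¹)⌋₊
          ((fun (s : Br n → K) i => io (s i)) '' Exceptional n K io (ω T) T M) ∧
        (Exceptional n K io (ω T) T M).Finite ∧
        ((Exceptional n K io (ω T) T M).ncard : ℝ) ≤
          T ^ ((ω T : ℝ)⁻¹) * ({x : K | Y120.HtLe K T x}.ncard : ℝ) ^ (Fintype.card (Br n) - 1) := by
  refine ⟨fun j => ?_, ?_⟩
  · obtain ⟨c, hc, h⟩ := det_cube (n j)
    exact ⟨c, hc, fun x hx => h (fun i => x ⟨j, i⟩) (hx j)⟩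
  · exact Y890.MV.omega_gen (X := XX n) (fun k => Σ r : Fin (k + 1), Matrix (Fin r) (Fin r) ℂ)
      (fun k K _ _ io M T => ExcS k K io M T) (fun _ _ _ _ _ _ _ _ hs => hs.1) (fun k ε hε => cov_excS hn k ε hε)

end Pool.Agent.Results.MP_470b79_ag.TrigonalCurvesH42
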