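import Pool.Agent.E8helper24.INF.DrbLaw

/-!
# De Rham-Betti classes, Hodge classes and motivated classes: a zero-one law and uniform index laws

Let `X` be a smooth projective variety over the field of algebraic numbers. We consider the following
cohomology classes on a variety `Y`: the de Rham-Betti classes, those of them which are also Hodge
classes, the motivated classes (André), and the algebraic classes modulo numerical equivalence; the
numbers of linearly independent classes are denoted by `b(Y) ≥ h(Y) ≥ m(Y) ≥ a(Y)`.

**Theorem.** There are `N₁`, `N₂`, `M` in `{1, 2, …, ∞}` such that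
`b(X^n) / h(X^n) → N₁`, `h(X^n) / m(X^n) → N₂`, `m(X^n) / a(X^n) → M`, and

1. `N₁ = 1` or `N₁ = ∞` (**zero-one law**), and `N₁ = 1` if and only if all de Rham-Betti classes
   on all powers of `X` are Hodge classes; so a single de Rham-Betti class on a single power of
   `X` which is not a Hodge class forces that 0 percent of the de Rham-Betti classes on `X^n` are
   Hodge classes, and in particular 0 percent of them are motivated;
2. `N₂ = 1` if and only if all classes on all powers of `X` which are de Rham-Betti and Hodge are
   motivated; `M = 1` if and only if all motivated classes on all powers of `X` are algebraic;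
   `N₁ N₂ = 1` if and only if all de Rham-Betti classes on all powers of `X` are motivated;
3. (**uniformity in all varieties `Z`**) for each natural number `r ≤ N₁` there is a constant `C` such
   that `h(X^(n+1) × Z × Z) ≤ (1 / r + C log (n + 2) / (n + 1)) b(X^(n+1) × Z × Z)` for all `n` and
   for ALL varieties `Z`; similarly for `m / h` and `N₂`, for `a / m` and `M`, for `m / b` and `N₁ N₂`
   and for `a / b` and `N₁ N₂ M`.

For the equality of the torsors of de Rham-Betti and of motivated periods of `h(X)` it is necessary
that `N₁ N₂ = 1`.
-/

open CategoryTheory AlgebraicGeometry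

universe u

namespace Pool.Agent.Results.MP_470b79_ag.ZeroOneHodgeBettiH24

open Pool.Agent.H914 Pool.Agent.H914.VarClass Pool.Agent.H914.VarClass.Obj
  Pool.Agent.H914.WeilCohomology Pool.Agent.Y133.Per Pool.Agent.R920.MT Pool.Agent.Y121.AHS
  Pool.Agent.E8helper24.INF.Drb

variable {k : Type u} [Field k] {𝒱 : VarClass k} {ops : CycleOps 𝒱}

/-- **The zero-one law and the uniform index laws.** -/
theorem result (T : HodgeTheory ops) {F : Subfield ℂ} (D : DeRham T.W F) (hD : GradedDR D)
    (X : 𝒱.Obj) [Nontrivial (T.W.H X)] :
    Nondeg (IsHB D) ∧ Nondeg (IsMotivated T.W) ∧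
      ∃ N₁ N₂ M : ℕ∞, FourLaw D X N₁ N₂ M ∧ (N₁ = 1 ∨ N₁ = ⊤) :=
  four_law D hD X

end Pool.Agent.Results.MP_470b79_ag.ZeroOneHodgeBettiH24
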